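import Pool.Agent.Helper18.NF.Stmts2

set_option autoImplicit false

namespace Pool.Agent.Helper18.NF

open Polynomial

/-- degree at most `e` and coefficient `c` there -/
def dlr_L {k : Type} [Field k] (P : k[X]) (e : ℕ) (c : k) : Prop :=
  P.natDegree ≤ e ∧ P.coeff e = c

section
variable {k : Type} [Field k]

theorem dlr_L_mul {P Q : k[X]} {e f : ℕ} {c d : k} (h1 : dlr_L P e c) (h2 : dlr_L Q f d) :
    dlr_L (P * Q) (e + f) (c * d) :=
  ⟨le_trans natDegree_mul_le (Nat.add_le_add h1.1 h2.1), by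
    rw [coeff_mul_add_eq_of_natDegree_le h1.1 h2.1, h1.2, h2.2]⟩

theorem dlr_L_add {P Q : k[X]} {e : ℕ} {c d : k} (h1 : dlr_L P e c) (h2 : dlr_L Q e d) :
    dlr_L (P + Q) e (c + d) :=
  ⟨natDegree_add_le_of_degree_le h1.1 h2.1, by rw [coeff_add, h1.2, h2.2]⟩

theorem dlr_L_sub {P Q : k[X]} {e : ℕ} {c d : k} (h1 : dlr_L P e c) (h2 : dlr_L Q e d) :
    dlr_L (P - Q) e (c - d) :=
  ⟨(natDegree_sub_le _ _).trans (max_le h1.1 h2.1), by rw [coeff_sub, h1.2, h2.2]⟩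

theorem dlr_L_low {P : k[X]} {e : ℕ} (h : P.natDegree < e) : dlr_L P e 0 :=
  ⟨h.le, coeff_eq_zero_of_natDegree_lt h⟩

theorem dlr_L_C (c : k) : dlr_L (C c) 0 c := ⟨(natDegree_C c).le, coeff_C_zero⟩

theorem dlr_L_X : dlr_L (X : k[X]) 1 1 := ⟨natDegree_X_le, coeff_X_one⟩

theorem dlr_L_lc (P : k[X]) : dlr_L P P.natDegree P.leadingCoeff := ⟨le_refl _, rfl⟩

theorem dlr_L_deg {P : k[X]} {e : ℕ} {c : k} (h : dlr_L P e c) (hc : c ≠ 0) :
    P.natDegree = e ∧ P.leadingCoeff = c := by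
  have h1 : P.natDegree = e := by
    apply le_antisymm h.1
    apply le_natDegree_of_ne_zero
    rw [h.2]
    exact hc
  refine ⟨h1, ?_⟩
  rw [leadingCoeff, h1, h.2]

end

/-- the relation without coprimality implies the one with coprimality -/
theorem dlr_red {k : Type} [Field k] (a b : k) (n : ℕ) (N M : k[X]) (hM : M ≠ 0)
    (hd : N.natDegree = M.natDegree + 1) (hl : (n : k) ^ 2 * N.leadingCoeff = M.leadingCoeff)
    (h : MulX a b n N M) :
    ∃ A B : k[X], IsCoprime A B ∧ A.natDegree = B.natDegree + 1 ∧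
      (n : k) ^ 2 * A.leadingCoeff = B.leadingCoeff ∧ MulX a b n A B := by
  have hN : N ≠ 0 := by
    intro h0
    rw [h0, natDegree_zero] at hd
    omega
  classical
  obtain ⟨g, hg⟩ : ∃ g, g = EuclideanDomain.gcd N M := ⟨_, rfl⟩
  obtain ⟨A, h1⟩ : g ∣ N := by
    rw [hg]
    exact EuclideanDomain.gcd_dvd_left N M
  obtain ⟨B, h2⟩ : g ∣ M := by
    rw [hg]
    exact EuclideanDomain.gcd_dvd_right N M
  have hg0 : g ≠ 0 := by
    intro h0
    rw [h0, zero_mul] at h2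
    exact hM h2
  have hcop : IsCoprime A B := by
    have h3 := EuclideanDomain.gcd_eq_gcd_ab N M
    rw [← hg] at h3
    refine ⟨EuclideanDomain.gcdA N M, EuclideanDomain.gcdB N M, ?_⟩
    obtain ⟨s, hs⟩ : ∃ s, s = EuclideanDomain.gcdA N M := ⟨_, rfl⟩
    obtain ⟨t, ht⟩ : ∃ t, t = EuclideanDomain.gcdB N M := ⟨_, rfl⟩
    rw [← hs, ← ht] at h3 ⊢
    apply mul_left_cancel₀ hg0
    rw [h1, h2] at h3
    linear_combination -h3
  have hA0 : A ≠ 0 := by
    intro h0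
    rw [h0, mul_zero] at h1
    exact hN h1
  have hB0 : B ≠ 0 := by
    intro h0
    rw [h0, mul_zero] at h2
    exact hM h2
  refine ⟨A, B, hcop, ?_, ?_, ?_⟩
  · rw [h1, h2, natDegree_mul hg0 hA0, natDegree_mul hg0 hB0] at hd
    omega
  · rw [h1, h2, leadingCoeff_mul, leadingCoeff_mul] at hl
    have hg1 : g.leadingCoeff ≠ 0 := leadingCoeff_ne_zero.2 hg0
    apply mul_left_cancel₀ hg1
    linear_combination hl
  · intro hΔ F _ _ _ x y hxy hx
    obtain ⟨x', y', h', hn, he⟩ := h hΔ F x y hxy hx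
    refine ⟨x', y', h', hn, ?_⟩
    have hgx : aeval x g ≠ 0 := fun h0 => hg0 ((transcendental_iff.1 hx) g h0)
    rw [h1, h2, map_mul, map_mul] at he
    apply mul_left_cancel₀ hgx
    linear_combination he

theorem dlr_one {k : Type} [Field k] (a b : k) :
    ∃ A B : k[X], IsCoprime A B ∧ A.natDegree = B.natDegree + 1 ∧
      ((1 : ℕ) : k) ^ 2 * A.leadingCoeff = B.leadingCoeff ∧ MulX a b 1 A B := by
  refine ⟨X, 1, isCoprime_one_right, by simp, by simp, ?_⟩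
  intro hΔ F _ _ _ x y hxy hx
  exact ⟨x, y, hxy, one_nsmul _, by simp⟩

theorem dlr_two {k : Type} [Field k] [CharZero k] (a b : k) :
    ∃ A B : k[X], IsCoprime A B ∧ A.natDegree = B.natDegree + 1 ∧
      ((2 : ℕ) : k) ^ 2 * A.leadingCoeff = B.leadingCoeff ∧ MulX a b 2 A B := by
  have hX2 : dlr_L (X ^ 2 : k[X]) 2 1 := by
    have := dlr_L_mul (k := k) dlr_L_X dlr_L_X
    rwa [← sq, mul_one] at this
  have hX3 : dlr_L (X ^ 3 : k[X]) 3 1 := by
    have := dlr_L_mul (k := k) hX2 dlr_L_X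
    rwa [← pow_succ, mul_one] at this
  have hX4 : dlr_L (X ^ 4 : k[X]) 4 1 := by
    have := dlr_L_mul (k := k) hX3 dlr_L_X
    rwa [← pow_succ, mul_one] at this
  have hN : dlr_L (X ^ 4 - (C (2 * a) * X ^ 2 + (C (8 * b) * X - C (a ^ 2))) : k[X]) 4 (1 - 0) := by
    refine dlr_L_sub hX4 (dlr_L_low ?_)
    have h1 : (C (2 * a) * X ^ 2 : k[X]).natDegree ≤ 2 := (dlr_L_mul (dlr_L_C _) hX2).1.trans (by simp)
    have h2 : (C (8 * b) * X : k[X]).natDegree ≤ 1 := (dlr_L_mul (dlr_L_C _) dlr_L_X).1.trans (by simp)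
    have h3 : (C (a ^ 2) : k[X]).natDegree ≤ 0 := (natDegree_C _).le
    have h4 := natDegree_add_le (C (2 * a) * X ^ 2 : k[X]) (C (8 * b) * X - C (a ^ 2))
    have h5 := natDegree_sub_le (C (8 * b) * X : k[X]) (C (a ^ 2))
    omega
  have hM : dlr_L (C 4 * (X ^ 3 + (C a * X + C b)) : k[X]) (0 + 3) (4 * (1 + 0)) := by
    refine dlr_L_mul (dlr_L_C _) (dlr_L_add hX3 (dlr_L_low ?_))
    have h2 : (C a * X : k[X]).natDegree ≤ 1 := (dlr_L_mul (dlr_L_C _) dlr_L_X).1.trans (by simp)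
    have h3 : (C b : k[X]).natDegree ≤ 0 := (natDegree_C _).le
    have h4 := natDegree_add_le (C a * X : k[X]) (C b)
    omega
  obtain ⟨hN1, hN2⟩ := dlr_L_deg hN (by simp)
  obtain ⟨hM1, hM2⟩ := dlr_L_deg hM (by simp)
  refine dlr_red a b 2 (X ^ 4 - (C (2 * a) * X ^ 2 + (C (8 * b) * X - C (a ^ 2))))
    (C 4 * (X ^ 3 + (C a * X + C b))) ?_ (by rw [hN1, hM1]) (by rw [hN2, hM2]; push_cast; ring) ?_
  · intro h0
    rw [h0, leadingCoeff_zero] at hM2
    norm_num at hM2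
  · intro hΔ F _ _ _ x y hxy hx
    have hy : y ≠ 0 := by
      intro h0
      unfold Eq3 at hxy
      rw [h0] at hxy
      have h1 : aeval x (X ^ 3 + (C a * X + C b) : k[X]) = 0 := by
        simp only [map_add, map_mul, map_pow, aeval_X, aeval_C]
        linear_combination -hxy
      have h2 := (transcendental_iff.1 hx) _ h1
      rw [h2, mul_zero, leadingCoeff_zero] at hM2
      norm_num at hM2
    obtain ⟨x₃, y₃, h₃, hs, hx3, _⟩ := EP.add_self hΔ hxy hy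
    refine ⟨x₃, y₃, h₃, by rw [two_nsmul, hs], ?_⟩
    simp only [map_add, map_sub, map_mul, map_pow, aeval_X, aeval_C, map_ofNat]
    rw [hx3]
    have hy4 : (4 : F) * y ^ 2 = 4 * (x ^ 3 + (algebraMap k F a * x + algebraMap k F b)) := by
      unfold Eq3 at hxy
      rw [hxy]
      ring
    rw [← hy4]
    have h5 : (((3 * x ^ 2 + algebraMap k F a) / (2 * y)) ^ 2 - 2 * x) * (4 * y ^ 2) =
        (3 * x ^ 2 + algebraMap k F a) ^ 2 - 8 * x * y ^ 2 := by
      field_simp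
      ring
    rw [h5]
    unfold Eq3 at hxy
    rw [hxy]
    ring

theorem dlr_step (hA : ST_ADX) {k : Type} [Field k] [CharZero k] (a b : k) (m : ℕ) (hm : 1 ≤ m)
    (h1 : ∃ A B : k[X], IsCoprime A B ∧ A.natDegree = B.natDegree + 1 ∧
      ((m : ℕ) : k) ^ 2 * A.leadingCoeff = B.leadingCoeff ∧ MulX a b m A B)
    (h2 : ∃ A B : k[X], IsCoprime A B ∧ A.natDegree = B.natDegree + 1 ∧
      ((m + 1 : ℕ) : k) ^ 2 * A.leadingCoeff = B.leadingCoeff ∧ MulX a b (m + 1) A B) :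
    ∃ A B : k[X], IsCoprime A B ∧ A.natDegree = B.natDegree + 1 ∧
      ((m + 2 : ℕ) : k) ^ 2 * A.leadingCoeff = B.leadingCoeff ∧ MulX a b (m + 2) A B := by
  obtain ⟨A', B', _, hd', hl', hM'⟩ := h1
  obtain ⟨A, B, _, hd, hl, hM⟩ := h2
  have hA0 : A ≠ 0 := by
    intro h0
    rw [h0, natDegree_zero] at hd
    omega
  have hA0' : A' ≠ 0 := by
    intro h0
    rw [h0, natDegree_zero] at hd'
    omega
  obtain ⟨α, hα⟩ : ∃ α, α = A.leadingCoeff := ⟨_, rfl⟩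
  obtain ⟨α', hα'⟩ : ∃ α', α' = A'.leadingCoeff := ⟨_, rfl⟩
  have hα0 : α ≠ 0 := by rw [hα]; exact leadingCoeff_ne_zero.2 hA0
  have hα0' : α' ≠ 0 := by rw [hα']; exact leadingCoeff_ne_zero.2 hA0'
  rw [← hα] at hl
  rw [← hα'] at hl'
  have hm0 : (m : k) ≠ 0 := by
    have : m ≠ 0 := by omega
    exact_mod_cast this
  have hm2 : (m : k) + 2 ≠ 0 := by
    have : ((m + 2 : ℕ) : k) ≠ 0 := Nat.cast_ne_zero.2 (by omega)
    push_cast at this
    exact this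
  have LA : dlr_L A (B.natDegree + 1) α := by
    rw [hα, ← hd]
    exact dlr_L_lc A
  have LA' : dlr_L A' (B'.natDegree + 1) α' := by
    rw [hα', ← hd']
    exact dlr_L_lc A'
  have LB : dlr_L B B.natDegree ((m + 1 : k) ^ 2 * α) := by
    have h := dlr_L_lc B
    rw [← hl] at h
    push_cast at h
    exact h
  have LB' : dlr_L B' B'.natDegree ((m : k) ^ 2 * α') := by
    have h := dlr_L_lc B'
    rw [← hl'] at h
    exact h
  have LXB : dlr_L (B * X) (B.natDegree + 1) ((m + 1 : k) ^ 2 * α * 1) := dlr_L_mul LB dlr_L_X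
  have LXA : dlr_L (A * X) (B.natDegree + 1 + 1) (α * 1) := dlr_L_mul LA dlr_L_X
  have LD : dlr_L (B * X - A) (B.natDegree + 1) ((m + 1 : k) ^ 2 * α * 1 - α) := dlr_L_sub LXB LA
  have hDne : (m + 1 : k) ^ 2 * α * 1 - α ≠ 0 := by
    have : (m + 1 : k) ^ 2 * α * 1 - α = α * (m * (m + 2)) := by ring
    rw [this]
    exact mul_ne_zero hα0 (mul_ne_zero hm0 hm2)
  have LS : dlr_L (A + B * X) (B.natDegree + 1) (α + (m + 1 : k) ^ 2 * α * 1) := dlr_L_add LA LXB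
  have LT : dlr_L (A * X + C a * B) (B.natDegree + 1 + 1) (α * 1 + 0) := by
    refine dlr_L_add LXA (dlr_L_low ?_)
    have := (dlr_L_mul (dlr_L_C a) LB).1
    omega
  have LU : dlr_L ((A + B * X) * (A * X + C a * B) + C (2 * b) * (B * B))
      (B.natDegree + 1 + (B.natDegree + 1 + 1))
      ((α + (m + 1 : k) ^ 2 * α * 1) * (α * 1 + 0) + 0) := by
    refine dlr_L_add (dlr_L_mul LS LT) (dlr_L_low ?_)
    have := (dlr_L_mul (dlr_L_C (2 * b)) (dlr_L_mul LB LB)).1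
    omega
  have LD2 := dlr_L_mul LD LD
  have LM := dlr_L_mul LB' LD2
  have LN1 := dlr_L_mul (dlr_L_C 2) (dlr_L_mul LB' LU)
  have LN2 := dlr_L_mul LA' LD2
  have he : B'.natDegree + 1 + (B.natDegree + 1 + (B.natDegree + 1)) =
      0 + (B'.natDegree + (B.natDegree + 1 + (B.natDegree + 1 + 1))) := by omega
  rw [he] at LN2
  have LN := dlr_L_sub LN1 LN2
  have hNc : (2 : k) * ((m : k) ^ 2 * α' * ((α + (m + 1 : k) ^ 2 * α * 1) * (α * 1 + 0) + 0)) -
      α' * (((m + 1 : k) ^ 2 * α * 1 - α) * ((m + 1 : k) ^ 2 * α * 1 - α)) =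
      α' * α ^ 2 * m ^ 4 := by ring
  have hMc : (m : k) ^ 2 * α' *
      (((m + 1 : k) ^ 2 * α * 1 - α) * ((m + 1 : k) ^ 2 * α * 1 - α)) =
      α' * α ^ 2 * m ^ 4 * (m + 2) ^ 2 := by ring
  rw [hNc] at LN
  rw [hMc] at LM
  have hc : α' * α ^ 2 * (m : k) ^ 4 ≠ 0 :=
    mul_ne_zero (mul_ne_zero hα0' (pow_ne_zero _ hα0)) (pow_ne_zero _ hm0)
  obtain ⟨hN1, hN2⟩ := dlr_L_deg LN hc
  obtain ⟨hM1, hM2⟩ := dlr_L_deg LM (mul_ne_zero hc (pow_ne_zero _ hm2))
  refine dlr_red a b (m + 2)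
    (C 2 * (B' * ((A + B * X) * (A * X + C a * B) + C (2 * b) * (B * B))) -
      A' * ((B * X - A) * (B * X - A)))
    (B' * ((B * X - A) * (B * X - A))) ?_ (by rw [hN1, hM1]; omega)
    (by rw [hN2, hM2]; push_cast; ring) ?_
  · intro h0
    rw [h0, leadingCoeff_zero] at hM2
    exact mul_ne_zero hc (pow_ne_zero _ hm2) hM2.symm
  · intro hΔ F _ _ _ x y hxy hx
    obtain ⟨xm, ym, hm', hmn, hme⟩ := hM' hΔ F x y hxy hx
    obtain ⟨xn, yn, hn', hnn, hne⟩ := hM hΔ F x y hxy hx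
    have hxn : xn ≠ x := by
      intro h0
      rw [h0] at hne
      have h3 : aeval x (B * X - A) = 0 := by
        simp only [map_sub, map_mul, aeval_X]
        linear_combination hne
      have h4 := (transcendental_iff.1 hx) _ h3
      have h5 := LD.2
      rw [h4, coeff_zero] at h5
      exact hDne h5.symm
    obtain ⟨x₃, y₃, x₄, y₄, h₃, h₄, hs, hdf, hrel⟩ := hA k F a b hΔ xn yn x y hn' hxy hxn
    have hx4 : x₄ = xm := by
      rw [← hnn, succ_nsmul, add_sub_cancel_right, hmn] at hdf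
      exact (EP.pt_inj hΔ hdf).1.symm
    refine ⟨x₃, y₃, h₃, ?_, ?_⟩
    · rw [succ_nsmul, hnn, hs]
    · rw [hx4] at hrel
      simp only [map_add, map_sub, map_mul, aeval_X, aeval_C, map_ofNat]
      obtain ⟨u, hu⟩ : ∃ u, u = aeval x A := ⟨_, rfl⟩
      obtain ⟨v, hv⟩ : ∃ v, v = aeval x B := ⟨_, rfl⟩
      obtain ⟨u', hu'⟩ : ∃ u', u' = aeval x A' := ⟨_, rfl⟩
      obtain ⟨v', hv'⟩ : ∃ v', v' = aeval x B' := ⟨_, rfl⟩
      rw [← hu, ← hv] at hne ⊢
      rw [← hu', ← hv'] at hme ⊢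
      rw [← hne, ← hme]
      linear_combination (v' * v ^ 2) * hrel

theorem st_DLR (hA : ST_ADX) : ST_DLR := by
  intro k _ _ a b hΔ n hn
  have key : ∀ m : ℕ, (∃ A B : k[X], IsCoprime A B ∧ A.natDegree = B.natDegree + 1 ∧
      ((m + 1 : ℕ) : k) ^ 2 * A.leadingCoeff = B.leadingCoeff ∧ MulX a b (m + 1) A B) ∧
      (∃ A B : k[X], IsCoprime A B ∧ A.natDegree = B.natDegree + 1 ∧
      ((m + 1 + 1 : ℕ) : k) ^ 2 * A.leadingCoeff = B.leadingCoeff ∧
        MulX a b (m + 1 + 1) A B) := by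
    intro m
    induction m with
    | zero => exact ⟨dlr_one a b, dlr_two a b⟩
    | succ m ih => exact ⟨ih.2, dlr_step hA a b (m + 1) (by omega) ih.1 ih.2⟩
  obtain ⟨m, rfl⟩ : ∃ m, n = m + 1 := ⟨n - 1, by omega⟩
  exact (key m).1

end Pool.Agent.Helper18.NF
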