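import Pool.Agent.Helper18.NF.Stmts3

set_option autoImplicit false

namespace Pool.Agent.Helper18.NF

open Pool.Agent.Helper14.BSC Polynomial

section
variable {k Ω : Type} [Field k] [Field Ω] [Algebra k Ω]

/-- the map `k → W` -/
def edv_f (W : ValuationSubring Ω) (hW : ∀ c : k, algebraMap k Ω c ∈ W) : k →+* W where
  toFun c := ⟨algebraMap k Ω c, hW c⟩
  map_one' := Subtype.ext (map_one _)
  map_mul' x y := Subtype.ext (map_mul _ x y)
  map_zero' := Subtype.ext (map_zero _)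
  map_add' x y := Subtype.ext (map_add _ x y)

theorem edv_alg (W : ValuationSubring Ω) (hW : ∀ c : k, algebraMap k Ω c ∈ W) (z : Ω)
    (hz : IsAlgebraic k z) : z ∈ W := by
  have h1 : IsIntegral k z := hz.isIntegral
  obtain ⟨p, hp, hp0⟩ := h1
  have h2 : IsIntegral W z := by
    refine ⟨p.map (edv_f W hW), hp.map _, ?_⟩
    rw [eval₂_map]
    exact hp0
  obtain ⟨y, hy⟩ := (IsIntegrallyClosed.isIntegral_iff (R := W) (K := Ω)).1 h2
  rw [← hy]
  exact y.2

/-- the map `Acl → W` -/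
def edv_g (W : ValuationSubring Ω) (hW : ∀ c : k, algebraMap k Ω c ∈ W) : Acl k Ω →+* W where
  toFun c := ⟨(c : Ω), edv_alg W hW c (mem_algebraicClosure_iff.1 c.2)⟩
  map_one' := rfl
  map_mul' _ _ := rfl
  map_zero' := rfl
  map_add' _ _ := rfl

theorem edv_res (W : ValuationSubring Ω) (x : W) :
    IsLocalRing.residue W x = 0 ↔ ((x : Ω) = 0 ∨ (x : Ω)⁻¹ ∉ W) := by
  rw [IsLocalRing.residue_eq_zero_iff, IsLocalRing.mem_maximalIdeal, mem_nonunits_iff]
  constructor
  · intro h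
    by_contra hcon
    push Not at hcon
    obtain ⟨h1, h2⟩ := hcon
    apply h
    refine ⟨⟨x, ⟨(x : Ω)⁻¹, h2⟩, Subtype.ext (mul_inv_cancel₀ h1),
      Subtype.ext (inv_mul_cancel₀ h1)⟩, rfl⟩
  · rintro (h | h) ⟨u, hu⟩
    · have h1 : x = 0 := Subtype.ext h
      rw [h1] at hu
      exact u.ne_zero hu
    · apply h
      have h1 : (x : Ω) * ((u⁻¹ : Wˣ) : W) = 1 := by
        rw [← hu]
        have h2 : (u : W) * ((u⁻¹ : Wˣ) : W) = 1 := u.mul_inv
        exact congrArg (Subtype.val) h2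
      have h3 : (x : Ω)⁻¹ = (((u⁻¹ : Wˣ) : W) : Ω) := inv_eq_of_mul_eq_one_right h1
      rw [h3]
      exact SetLike.coe_mem _

/-- a root outside `W` -/
theorem edv_root [IsAlgClosed Ω] (W : ValuationSubring Ω) (hW : ∀ c : k, algebraMap k Ω c ∈ W)
    (A B : k[X]) (hd : A.natDegree = B.natDegree + 1) (hB : B.leadingCoeff ≠ 0) (x : Ω)
    (hx : x ∉ W) : ∃ x' : Ω, x' ∉ W ∧ aeval x' A = x * aeval x' B := by
  have hA0 : A ≠ 0 := by
    intro h0
    rw [h0, natDegree_zero] at hd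
    omega
  set P : Polynomial Ω := A.map (algebraMap k Ω) - C x * B.map (algebraMap k Ω) with hP
  have hlow : (C x * B.map (algebraMap k Ω)).natDegree < (A.map (algebraMap k Ω)).natDegree := by
    refine lt_of_le_of_lt (natDegree_C_mul_le _ _) ?_
    rw [natDegree_map, natDegree_map, hd]
    exact Nat.lt_succ_self _
  have hPd : P.natDegree = A.natDegree := by
    rw [hP, natDegree_sub_eq_left_of_natDegree_lt hlow, natDegree_map]
  have hPl : P.leadingCoeff = algebraMap k Ω A.leadingCoeff := by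
    rw [hP, leadingCoeff_sub_of_degree_lt (degree_lt_degree hlow), leadingCoeff_map]
  have hP0 : P ≠ 0 := by
    intro h0
    rw [h0, leadingCoeff_zero] at hPl
    have := (map_eq_zero (algebraMap k Ω)).1 hPl.symm
    exact hA0 (leadingCoeff_eq_zero.1 this)
  by_contra hcon
  push Not at hcon
  have hroots : ∀ r ∈ P.roots, r ∈ W := by
    intro r hr
    by_contra hrW
    have h1 : P.eval r = 0 := (mem_roots hP0).1 hr
    apply hcon r hrW
    rw [hP, eval_sub, eval_mul, eval_C, eval_map_algebraMap, eval_map_algebraMap] at h1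
    exact sub_eq_zero.1 h1
  have hprod : P = C P.leadingCoeff * (P.roots.map (fun a => X - C a)).prod :=
    (IsAlgClosed.splits P).eq_prod_roots
  have hlift : P ∈ lifts (algebraMap W Ω) := by
    rw [hprod]
    refine Subsemiring.mul_mem _ ?_ ?_
    · rw [hPl]
      exact (lifts_iff_coeff_lifts _).2 (fun n => by
        rw [coeff_C]
        split_ifs
        · exact ⟨⟨_, hW _⟩, rfl⟩
        · exact ⟨0, map_zero _⟩)
    · refine Subsemiring.multiset_prod_mem _ _ ?_
      intro Q hQ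
      obtain ⟨r, hr, rfl⟩ := Multiset.mem_map.1 hQ
      rw [mem_lifts]
      refine ⟨X - C (⟨r, hroots r hr⟩ : W), ?_⟩
      rw [Polynomial.map_sub, Polynomial.map_X, Polynomial.map_C]
      rfl
  obtain ⟨c, hc⟩ := (lifts_iff_coeff_lifts _).1 hlift B.natDegree
  have h2 : P.coeff B.natDegree ∈ W := by
    rw [← hc]
    exact c.2
  rw [hP, coeff_sub, coeff_C_mul, coeff_map, coeff_map] at h2
  have h3 : x * algebraMap k Ω B.leadingCoeff ∈ W := by
    have := W.sub_mem (hW (A.coeff B.natDegree)) h2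
    rw [sub_sub_cancel] at this
    exact this
  apply hx
  have h4 := W.mul_mem _ _ h3 (hW (B.leadingCoeff)⁻¹)
  rw [mul_assoc, ← map_mul, mul_inv_cancel₀ hB, map_one, mul_one] at h4
  exact h4

end

theorem edv_div (hDLR : ST_DLR) {k Ω : Type} [Field k] [Field Ω] [Algebra k Ω] [CharZero k]
    [CharZero Ω] [IsAlgClosed Ω] (W : ValuationSubring Ω) (hW : ∀ c : k, algebraMap k Ω c ∈ W)
    (a b : k) (hΔ : 4 * a ^ 3 + 27 * b ^ 2 ≠ 0) (x y : Ω) (h : Eq3 a b x y) (hx : x ∉ W) (n : ℕ)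
    (hn : 1 ≤ n) : ∃ (x' y' : Ω) (h' : Eq3 a b x' y'), x' ∉ W ∧
      n • EP.pt hΔ x' y' h' = EP.pt hΔ x y h := by
  obtain ⟨A, B, -, hd, hl, hM⟩ := hDLR k a b hΔ n hn
  have hA0 : A ≠ 0 := by
    intro h0
    rw [h0, natDegree_zero] at hd
    omega
  have hn0 : (n : k) ≠ 0 := Nat.cast_ne_zero.2 (by omega)
  have hB0 : B.leadingCoeff ≠ 0 := by
    rw [← hl]
    exact mul_ne_zero (pow_ne_zero _ hn0) (leadingCoeff_ne_zero.2 hA0)
  obtain ⟨x', hx', hAB⟩ := edv_root W hW A B hd hB0 x hx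
  have htr : Transcendental k x' := fun halg => hx' (edv_alg W hW x' halg)
  obtain ⟨y', hy'⟩ := IsAlgClosed.exists_pow_nat_eq
    (x' ^ 3 + algebraMap k Ω a * x' + algebraMap k Ω b) (n := 2) (by norm_num)
  have h' : Eq3 a b x' y' := hy'
  obtain ⟨x'', y'', h'', hmul, hxx⟩ := hM hΔ Ω x' y' h' htr
  have hBx : aeval x' B ≠ 0 := by
    intro h0
    exact hB0 (leadingCoeff_eq_zero.2 ((transcendental_iff.1 htr) B h0))
  have hxe : x'' = x := by
    rw [hAB] at hxx
    exact mul_right_cancel₀ hBx hxx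
  subst hxe
  rcases EP.x_eq hΔ h'' h with h1 | h1
  · exact ⟨x', y', h', hx', by rw [hmul, h1]⟩
  · refine ⟨x', -y', h'.neg, hx', ?_⟩
    rw [← EP.neg_pt hΔ h', smul_neg, hmul, h1, neg_neg]

theorem st_EDV (hDLR : ST_DLR) (hTRN : ST_TRN) (hALP : ST_ALP) (hRED : ST_RED) : ST_EDV := by
  intro k Ω _ _ _ _ _ _ D W hW hinv a b hΔ x y h hxL hyL hx n hn
  obtain ⟨x', y', h', hx', hmul⟩ := edv_div hDLR W hW a b hΔ x y h hx n hn
  have hca : CharZero (Acl k Ω) :=
    charZero_of_injective_algebraMap (algebraMap k (Acl k Ω)).injective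
  let algF : Algebra k (IsLocalRing.ResidueField W) :=
    ((IsLocalRing.residue W).comp (edv_f W hW)).toAlgebra
  have hcF : CharZero (IsLocalRing.ResidueField W) :=
    charZero_of_injective_algebraMap (algebraMap k (IsLocalRing.ResidueField W)).injective
  let j : Acl k Ω →ₐ[k] IsLocalRing.ResidueField W :=
    { toRingHom := (IsLocalRing.residue W).comp (edv_g W hW)
      commutes' := fun c => rfl }
  obtain ⟨red, hr0, hr1, -, hr2⟩ := hRED k Ω (IsLocalRing.ResidueField W) (Acl k Ω) W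
    (IsLocalRing.residue W) (Acl k Ω).val j (edv_res W)
    (fun c => ⟨edv_alg W hW c (mem_algebraicClosure_iff.1 c.2), rfl⟩) a b hΔ
  have key : ∀ g : GG k Ω, D.s g x' = x' ∧ D.s g y' = y' := by
    intro g
    have hgx : D.s g x = x := (mem_NN.1 hxL) g (fun a ha => absurd ha (Set.notMem_empty a))
    have hgy : D.s g y = y := (mem_NN.1 hyL) g (fun a ha => absurd ha (Set.notMem_empty a))
    set T := EP.pt hΔ x' y' h' with hT
    set Tg := EP.map (a := a) (b := b) (D.s g : Ω →ₐ[k] Ω) T with hTg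
    have h1 : n • Tg = EP.pt hΔ x y h := by
      rw [hTg, ← map_nsmul, hmul, EP.map_pt]
      exact EP.pt_congr hΔ hgx hgy
    have h2 : n • (Tg - T) = 0 := by
      rw [smul_sub, h1, hmul, sub_self]
    have h3 : ∃ t : EP a b (Acl k Ω), EP.map (Acl k Ω).val t = Tg - T := by
      rcases EP.cases hΔ (Tg - T) with h4 | ⟨u, v, huv, h4⟩
      · exact ⟨0, by rw [h4, map_zero]⟩
      · have hu : IsAlgebraic k u := by
          by_contra hu
          obtain ⟨u', v', h5, h6, -⟩ := hTRN k Ω a b hΔ n hn u v huv hu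
          rw [h4, h6] at h2
          exact EP.pt_ne_zero hΔ h5 h2
        obtain ⟨P, hP⟩ := hALP k Ω a b hΔ u v huv hu
        exact ⟨P, by rw [hP, h4]⟩
    obtain ⟨t, ht⟩ := h3
    have h5 : Tg = T + EP.map (Acl k Ω).val t := by
      rw [ht, add_sub_cancel]
    have h6 : red Tg = 0 := by
      rw [hTg, hT, EP.map_pt]
      apply hr1
      intro h7
      exact hx' ((hinv g x').1 h7)
    have h7 : red T = 0 := hr1 x' y' h' hx'
    rw [h5, hr2, h7, zero_add] at h6
    have h8 : t = 0 := by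
      apply EP.map_injective j
      rw [h6, map_zero]
    rw [h8, map_zero, add_zero] at h5
    have h9 : EP.pt hΔ (D.s g x') (D.s g y') (h'.map (D.s g : Ω →ₐ[k] Ω)) = EP.pt hΔ x' y' h' := h5
    exact EP.pt_inj hΔ h9
  exact ⟨x', y', h', mem_NN.2 fun g _ => (key g).1, mem_NN.2 fun g _ => (key g).2, hmul⟩

end Pool.Agent.Helper18.NF
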